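import Pool.Agent.Q133.HTMulti

set_option autoImplicit false

namespace Pool.Agent.Results.MP_d6a58d_co.HalfIntegral

open Pool.Agent.Q133.HT

/-- Every rationally `K_3`-decomposable planar multigraph has a rational `K_3`-decomposition in
which all triangle weights lie in `{0, 1/2, 1}`. -/
theorem result (V E : Type) [Fintype V] [Fintype E] [DecidableEq E] (G : Multigraph V E)
    (hp : IsPlanar G.simple) (hG : ∃ ω : Finset E → ℚ, G.IsRatDecomp ω) :
    ∃ ω : Finset E → ℚ, G.IsRatDecomp ω ∧ ∀ t, ω t = 0 ∨ ω t = 1 / 2 ∨ ω t = 1 := by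
  classical
  exact main G hp hG

end Pool.Agent.Results.MP_d6a58d_co.HalfIntegral
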